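import Pool.Agent.W732.Cor.Stm
import Pool.Agent.H720R2.HP.Final

/-!
BASE: Carleson's corona theorem on the half plane with uniform constants.
-/

set_option autoImplicit false

open MeasureTheory Metric Set Filter Topology Complex

namespace Pool.Agent.W688.Cor

open Pool.Agent.H720R2.HP Pool.Agent.W732.Cor
open Pool.Agent.H720R2.Cor (Ball IsAutomorphism)

/-- disc to half plane -/
noncomputable def ci (x : ℂ) : ℂ := I * (1 + x) / (1 - x)

/-- half plane to disc -/
noncomputable def cy (w : ℂ) : ℂ := (w - I) / (w + I)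

lemma one_sub_ne {x : ℂ} (hx : ‖x‖ < 1) : 1 - x ≠ 0 := by
  intro h
  have : x = 1 := by linear_combination -h
  rw [this, norm_one] at hx
  exact lt_irrefl _ hx

lemma ci_mem {x : ℂ} (hx : ‖x‖ < 1) : ci x ∈ UH := by
  have h0 := one_sub_ne hx
  have hns : 0 < Complex.normSq (1 - x) := Complex.normSq_pos.2 h0
  change 0 < (ci x).im
  have e : ci x = (I * (1 + x) * (starRingEnd ℂ) (1 - x)) * (((Complex.normSq (1 - x))⁻¹ : ℝ) : ℂ) := by
    unfold ci
    rw [div_eq_mul_inv, Complex.inv_def]
    ring
  rw [e, Complex.im_mul_ofReal]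
  apply mul_pos _ (by positivity)
  have h1 : Complex.normSq x < 1 := by
    rw [Complex.normSq_eq_norm_sq]
    have := norm_nonneg x
    nlinarith
  rw [Complex.normSq_apply] at h1
  simp only [map_sub, map_one, Complex.mul_im, Complex.mul_re, Complex.I_re, Complex.I_im, Complex.add_re,
    Complex.add_im, Complex.one_re, Complex.one_im, Complex.sub_re, Complex.sub_im, Complex.conj_re,
    Complex.conj_im]
  nlinarith

lemma cy_lt {w : ℂ} (hw : w ∈ UH) : ‖cy w‖ < 1 := by
  have hw' : 0 < w.im := hw
  have h1 : ‖w - I‖ < ‖w + I‖ := by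
    apply lt_of_pow_lt_pow_left₀ 2 (norm_nonneg _)
    rw [← Complex.normSq_eq_norm_sq, ← Complex.normSq_eq_norm_sq, Complex.normSq_apply, Complex.normSq_apply]
    simp only [Complex.sub_re, Complex.sub_im, Complex.add_re, Complex.add_im, Complex.I_re, Complex.I_im]
    nlinarith
  have h2 : 0 < ‖w + I‖ := lt_of_le_of_lt (norm_nonneg _) h1
  unfold cy
  rw [norm_div, div_lt_one h2]
  exact h1

lemma add_I_ne {w : ℂ} (hw : w ∈ UH) : w + I ≠ 0 := by
  have hw' : 0 < w.im := hw
  intro h
  have := congrArg Complex.im h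
  simp at this
  linarith

lemma ci_cy {w : ℂ} (hw : w ∈ UH) : ci (cy w) = w := by
  have h0 := add_I_ne hw
  have h1 := one_sub_ne (cy_lt hw)
  unfold ci
  rw [div_eq_iff h1]
  unfold cy
  field_simp
  ring

theorem base : S_base := by
  classical
  intro N δ hδ
  have hN : (0:ℝ) < N + 1 := by positivity
  obtain ⟨C, hC0, hone⟩ := oneCoord N (δ := δ / (N + 1)) (by positivity)
  refine ⟨C, ?_⟩
  intro f hf hfb hlow
  have hid : IsAutomorphism (id : (Fin (0 + 1) → ℂ) → (Fin (0 + 1) → ℂ)) :=
    ⟨differentiableOn_id, fun z hz => hz, id, differentiableOn_id, fun z hz => hz, fun _ _ => rfl, fun _ _ => rfl⟩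
  have hball : ∀ z ∈ Ball (0 + 1), ‖z 0‖ < 1 := by
    intro z hz
    have := ball_zero hz
    simpa using this
  obtain ⟨g, g₀, h1, -, h3, -, h5⟩ := hone 0 id hid (fun i x => f i (ci x)) (by
    intro i
    apply (hf i).comp
    · intro x hx
      have hx' : ‖x‖ < 1 := by simpa using hx
      apply DifferentiableAt.differentiableWithinAt
      unfold ci
      exact DifferentiableAt.div (by fun_prop) (by fun_prop) (one_sub_ne hx')
    · intro x hx
      have hx' : ‖x‖ < 1 := by simpa using hx
      exact ci_mem hx') (by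
    intro i x hx
    have hx' : ‖x‖ < 1 := by simpa using hx
    exact hfb i _ (ci_mem hx')) (fun _ => 0) (differentiableOn_const _) (fun z _ => by simp) (by
    intro z hz hall
    exfalso
    have h6 := hlow (ci (z 0)) (ci_mem (hball z hz))
    have h7 : ∑ i, ‖f i (ci (z 0))‖ ≤ ∑ _i : Fin N, δ / (N + 1) :=
      Finset.sum_le_sum fun i _ => (hall i).le
    rw [Finset.sum_const, Finset.card_univ, Fintype.card_fin, nsmul_eq_mul, mul_div_assoc'] at h7
    have h8 : (N:ℝ) * δ / (N + 1) < δ := by
      rw [div_lt_iff₀ hN]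
      nlinarith
    linarith)
  have hm : ∀ w ∈ UH, (fun _ : Fin (0 + 1) => cy w) ∈ Ball (0 + 1) := by
    intro w hw
    change ∑ _i : Fin 1, ‖cy w‖ ^ 2 < 1
    have := cy_lt hw
    rw [Finset.sum_const, Finset.card_univ, Fintype.card_fin, one_smul]
    have := norm_nonneg (cy w)
    nlinarith
  refine ⟨fun i w => g i (fun _ => cy w), ?_, ?_, ?_⟩
  · intro i
    apply (h1 i).comp (t := Ball (0 + 1))
    · intro w hw
      apply DifferentiableAt.differentiableWithinAt
      rw [differentiableAt_pi]
      intro _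
      unfold cy
      exact DifferentiableAt.div (by fun_prop) (by fun_prop) (add_I_ne hw)
    · intro w hw
      exact hm w hw
  · intro i w hw
    exact h3 i _ (hm w hw)
  · intro w hw
    have h9 := h5 _ (hm w hw)
    simp only [id, zero_mul, add_zero] at h9
    rw [ci_cy hw] at h9
    exact h9

end Pool.Agent.W688.Cor
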