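import Pool.Agent.W732.Cor.Stm
import Pool.Agent.W732.Cor.Stm2

/-!
OP: the solution operator, from the kernel estimate.
-/

set_option autoImplicit false
set_option linter.unusedSectionVars false

open MeasureTheory Metric Set Filter Topology Complex
open scoped ContDiff

namespace Pool.Agent.W688.Cor

open Pool.Agent.H720R2 Pool.Agent.H720R2.HP Pool.Agent.H788R3.Cor2 Pool.Agent.W732.Cor

variable {E : Type} [NormedAddCommGroup E] [NormedSpace ℂ E] [FiniteDimensional ℂ E]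

lemma conj_ge {ζ w : ℂ} (hζ : 0 < ζ.im) (hw : 0 < w.im) : ‖w - ζ‖ ≤ ‖w - starRingEnd ℂ ζ‖ := by
  apply le_of_sq_le_sq _ (norm_nonneg _)
  rw [← Complex.normSq_eq_norm_sq, ← Complex.normSq_eq_norm_sq, Complex.normSq_apply, Complex.normSq_apply]
  simp only [Complex.sub_re, Complex.sub_im, Complex.conj_re, Complex.conj_im]
  nlinarith [mul_pos hζ hw]

lemma conj_pos {ζ w : ℂ} (hζ : 0 < ζ.im) (hw : 0 < w.im) : 0 < ‖w - starRingEnd ℂ ζ‖ := by
  rw [norm_pos_iff]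
  intro h
  have := congrArg Complex.im h
  simp at this
  linarith

lemma dk_nonneg (ζ w : ℂ) : 0 ≤ dk ζ w := by
  unfold dk; positivity

lemma dk_le_one {ζ w : ℂ} (hζ : 0 < ζ.im) (hw : 0 < w.im) : dk ζ w ≤ 1 := by
  unfold dk
  rw [div_le_one (conj_pos hζ hw)]
  apply le_of_sq_le_sq _ (norm_nonneg _)
  rw [mul_pow, Real.sq_sqrt (by positivity), ← Complex.normSq_eq_norm_sq, Complex.normSq_apply]
  simp only [Complex.sub_re, Complex.sub_im, Complex.conj_re, Complex.conj_im]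
  nlinarith [sq_nonneg (w.im - ζ.im), sq_nonneg (w.re - ζ.re)]

/-- the integrand of `S_ker` -/
noncomputable def kf (w ζ : ℂ) : ℝ := {ζ : ℂ | 0 < ζ.im}.indicator
  (fun ζ => (1 / ζ.im) * (2 * √(ζ.im * w.im) / ‖w - starRingEnd ℂ ζ‖) * ‖w - ζ‖⁻¹) ζ

lemma kf_nonneg (w ζ : ℂ) : 0 ≤ kf w ζ := by
  unfold kf
  apply indicator_nonneg
  intro z hz
  have hz' : 0 < z.im := hz
  positivity

lemma kf_of {w ζ : ℂ} (hζ : 0 < ζ.im) : kf w ζ = 1 / ζ.im * dk ζ w * ‖w - ζ‖⁻¹ := by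
  unfold kf dk
  rw [indicator_of_mem (show ζ ∈ {ζ : ℂ | 0 < ζ.im} from hζ)]

/-- hypotheses -/
structure HQ (D : Set (ℂ × E)) (Λ : ℂ → ℂ × E → E) (q : ℂ × E → ℂ) (A : ℝ) : Prop where
  retr : Retr D Λ
  A0 : 0 ≤ A
  cont : ContinuousOn q D
  hol : ∀ ζ : ℂ, DifferentiableOn ℂ (fun y : E => q (ζ, y)) {y | (ζ, y) ∈ D}
  dec : ∀ ζ : ℂ, 0 < ζ.im → ∀ p ∈ D, ‖q (ζ, Λ ζ p)‖ ≤ A / ζ.im * dk ζ p.1

variable {D : Set (ℂ × E)} {Λ : ℂ → ℂ × E → E} {q : ℂ × E → ℂ} {A : ℝ}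

/-- the integrand -/
noncomputable def ig (Λ : ℂ → ℂ × E → E) (q : ℂ × E → ℂ) (p : ℂ × E) (ζ : ℂ) : ℂ :=
  UH.indicator (fun ζ => q (ζ, Λ ζ p)) ζ

lemma ig_le (h : HQ D Λ q A) {p : ℂ × E} (hp : p ∈ D) (ζ : ℂ) :
    ‖ig Λ q p ζ / (p.1 - ζ)‖ ≤ A * kf p.1 ζ := by
  unfold ig
  by_cases hζ : ζ ∈ UH
  · have hζ' : 0 < ζ.im := hζ
    rw [indicator_of_mem hζ, norm_div, kf_of hζ', div_eq_mul_inv]
    have := h.dec ζ hζ' p hp
    calc ‖q (ζ, Λ ζ p)‖ * ‖p.1 - ζ‖⁻¹ ≤ (A / ζ.im * dk ζ p.1) * ‖p.1 - ζ‖⁻¹ := by gcongr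
      _ = _ := by ring
  · rw [indicator_of_notMem hζ, zero_div, norm_zero]
    exact mul_nonneg h.A0 (kf_nonneg _ _)

lemma T_open (hr : Retr D Λ) (y : E) : IsOpen {p : ℂ × ℂ | 0 < p.1.im ∧ (p.2, y) ∈ D} := by
  refine IsOpen.inter ?_ ?_
  · exact isOpen_lt continuous_const (Complex.continuous_im.comp continuous_fst)
  · exact hr.op.preimage (by fun_prop : Continuous fun p : ℂ × ℂ => (p.2, y))

lemma T_cont (h : HQ D Λ q A) (y : E) :
    ContinuousOn (fun p : ℂ × ℂ => q (p.1, Λ p.1 (p.2, y))) {p : ℂ × ℂ | 0 < p.1.im ∧ (p.2, y) ∈ D} := by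
  refine h.cont.comp ?_ ?_
  · exact continuousOn_fst.prodMk (h.retr.cont y)
  · intro p hp
    exact h.retr.mem _ hp.1 _ hp.2

lemma T_meas (h : HQ D Λ q A) (y : E) :
    Measurable ({p : ℂ × ℂ | 0 < p.1.im ∧ (p.2, y) ∈ D}.indicator
      (fun p : ℂ × ℂ => q (p.1, Λ p.1 (p.2, y)))) := by
  classical
  rw [← Set.piecewise_eq_indicator]
  exact ContinuousOn.measurable_piecewise (T_cont h y) continuousOn_const (T_open h.retr y).measurableSet

lemma ig_meas (h : HQ D Λ q A) {p : ℂ × E} (hp : p ∈ D) : Measurable (ig Λ q p) := by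
  have h1 := (T_meas h p.2).comp (measurable_id.prodMk (measurable_const (a := p.1)))
  have e : ig Λ q p = ({p' : ℂ × ℂ | 0 < p'.1.im ∧ (p'.2, p.2) ∈ D}.indicator
      (fun p' : ℂ × ℂ => q (p'.1, Λ p'.1 (p'.2, p.2)))) ∘ (fun ζ : ℂ => (id ζ, p.1)) := by
    ext ζ
    unfold ig
    simp only [Function.comp, id]
    by_cases hζ : ζ ∈ UH
    · have hζ' : 0 < ζ.im := hζ
      rw [indicator_of_mem hζ, indicator_of_mem (show (ζ, p.1) ∈ {p' : ℂ × ℂ | 0 < p'.1.im ∧ (p'.2, p.2) ∈ D}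
        from ⟨hζ', hp⟩)]
    · rw [indicator_of_notMem hζ, indicator_of_notMem]
      intro h2
      exact hζ h2.1
  rw [e]
  exact h1

/-- differentiability in `p` -/
lemma q_diff (h : HQ D Λ q A) {ζ : ℂ} (hζ : 0 < ζ.im) {p : ℂ × E} (hp : p ∈ D) :
    DifferentiableAt ℂ (fun p : ℂ × E => q (ζ, Λ ζ p)) p := by
  have hL := h.retr.mem ζ hζ _ hp
  have hO : IsOpen {y : E | (ζ, y) ∈ D} :=
    h.retr.op.preimage (by fun_prop : Continuous fun y : E => (ζ, y))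
  have h1 : DifferentiableAt ℂ (fun y : E => q (ζ, y)) (Λ ζ p) :=
    (h.hol ζ _ hL).differentiableAt (hO.mem_nhds hL)
  exact DifferentiableAt.comp (g := fun y : E => q (ζ, y)) (f := Λ ζ) p h1 (h.retr.diff ζ hζ p hp)

/-- the majorant -/
noncomputable def bj (ζ : ℂ) : ℝ := UH.indicator (fun ζ => (√ζ.im)⁻¹ * ((1 + ‖ζ‖) ^ 2)⁻¹) ζ

lemma UH_meas : MeasurableSet UH := (isOpen_lt continuous_const Complex.continuous_im).measurableSet

lemma bj_meas : Measurable bj := by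
  unfold bj
  exact Measurable.indicator (by fun_prop) UH_meas

lemma bj_nonneg (ζ : ℂ) : 0 ≤ bj ζ := by
  unfold bj
  apply indicator_nonneg
  intro z _
  positivity

lemma bj_le {ζ : ℂ} (hI : ζ ≠ I) : bj ζ ≤ kf I ζ := by
  by_cases hU : ζ ∈ UH
  · have hζ : 0 < ζ.im := hU
    unfold bj
    rw [indicator_of_mem hU, kf_of hζ]
    unfold dk
    rw [Complex.I_im, mul_one]
    have h1 : ‖I - starRingEnd ℂ ζ‖ ≤ 1 + ‖ζ‖ := by
      have := norm_sub_le I (starRingEnd ℂ ζ)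
      rwa [Complex.norm_I, RCLike.norm_conj] at this
    have h2 : ‖I - ζ‖ ≤ 1 + ‖ζ‖ := by
      have := norm_sub_le I ζ
      rwa [Complex.norm_I] at this
    have h3 : 0 < ‖I - starRingEnd ℂ ζ‖ := conj_pos hζ (by simp)
    have h4' : 0 < ‖I - ζ‖ := by
      rw [norm_pos_iff, sub_ne_zero]
      exact hI.symm
    obtain ⟨s, hs, hss, hse⟩ : ∃ s : ℝ, 0 < s ∧ s * s = ζ.im ∧ √ζ.im = s :=
      ⟨√ζ.im, Real.sqrt_pos.2 hζ, Real.mul_self_sqrt hζ.le, rfl⟩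
    rw [hse, ← hss]
    have e1 : 1 / (s * s) * (2 * s / ‖I - starRingEnd ℂ ζ‖) * ‖I - ζ‖⁻¹ =
        2 * (s⁻¹ * (‖I - starRingEnd ℂ ζ‖ * ‖I - ζ‖)⁻¹) := by
      field_simp
    rw [e1]
    have e2 : s⁻¹ * ((1 + ‖ζ‖) ^ 2)⁻¹ ≤ s⁻¹ * (‖I - starRingEnd ℂ ζ‖ * ‖I - ζ‖)⁻¹ := by
      rw [pow_two]
      gcongr
    have e3 : 0 ≤ s⁻¹ * ((1 + ‖ζ‖) ^ 2)⁻¹ := by positivity
    linarith
  · unfold bj
    rw [indicator_of_notMem hU]
    exact kf_nonneg _ _

lemma bj_int (hk : Integrable (kf I)) : Integrable bj := by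
  refine hk.mono' bj_meas.aestronglyMeasurable ?_
  have : ∀ᵐ ζ : ℂ, ζ ≠ I := by
    rw [ae_iff]
    simp
  filter_upwards [this] with ζ hζ
  rw [Real.norm_of_nonneg (bj_nonneg ζ)]
  exact bj_le hζ

/-- the near part -/
noncomputable def B1 (D : Set (ℂ × E)) (Λ : ℂ → ℂ × E → E) (q : ℂ × E → ℂ) (y : E) (R e : ℝ) (ζ w : ℂ) : ℂ :=
  ({ζ : ℂ | ‖ζ‖ ≤ R ∧ e ≤ ζ.im} ×ˢ {w : ℂ | (w, y) ∈ D}).indicator
    (fun p : ℂ × ℂ => q (p.1, Λ p.1 (p.2, y))) (ζ, w)

lemma K_meas (R e : ℝ) : MeasurableSet {ζ : ℂ | ‖ζ‖ ≤ R ∧ e ≤ ζ.im} := by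
  apply IsClosed.measurableSet
  exact (isClosed_le continuous_norm continuous_const).inter (isClosed_le continuous_const Complex.continuous_im)

lemma slice_o (h : HQ D Λ q A) (y : E) : IsOpen {w : ℂ | (w, y) ∈ D} :=
  h.retr.op.preimage (by fun_prop : Continuous fun w : ℂ => (w, y))

lemma B1_meas (h : HQ D Λ q A) (y : E) (R : ℝ) {e : ℝ} (he : 0 < e) :
    Measurable (fun p : ℂ × ℂ => B1 D Λ q y R e p.1 p.2) := by
  have hm := T_meas h y
  have heq : (fun p : ℂ × ℂ => B1 D Λ q y R e p.1 p.2) =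
      ({ζ : ℂ | ‖ζ‖ ≤ R ∧ e ≤ ζ.im} ×ˢ {w : ℂ | (w, y) ∈ D}).indicator
        ({p : ℂ × ℂ | 0 < p.1.im ∧ (p.2, y) ∈ D}.indicator (fun p : ℂ × ℂ => q (p.1, Λ p.1 (p.2, y)))) := by
    funext p
    unfold B1
    by_cases hp : p ∈ {ζ : ℂ | ‖ζ‖ ≤ R ∧ e ≤ ζ.im} ×ˢ {w : ℂ | (w, y) ∈ D}
    · rw [indicator_of_mem (a := (p.1, p.2)) hp, indicator_of_mem hp, indicator_of_mem
        (show p ∈ {p : ℂ × ℂ | 0 < p.1.im ∧ (p.2, y) ∈ D} from ⟨he.trans_le hp.1.2, hp.2⟩)]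
    · rw [indicator_of_notMem (a := (p.1, p.2)) hp, indicator_of_notMem hp]
  rw [heq]
  exact hm.indicator ((K_meas R e).prod (slice_o h y).measurableSet)

lemma B1_diff (h : HQ D Λ q A) (y : E) (R : ℝ) {e : ℝ} (he : 0 < e) (ζ : ℂ) :
    DifferentiableOn ℂ (B1 D Λ q y R e ζ) {w : ℂ | (w, y) ∈ D} := by
  intro w hw
  apply DifferentiableAt.differentiableWithinAt
  by_cases hζ : ζ ∈ {ζ : ℂ | ‖ζ‖ ≤ R ∧ e ≤ ζ.im}
  · have hζ' : 0 < ζ.im := he.trans_le hζ.2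
    have h1 := q_diff h hζ' (p := (w, y)) hw
    have h2 : DifferentiableAt ℂ (fun w : ℂ => (w, y)) w := differentiableAt_id.prodMk (differentiableAt_const _)
    have h3 : DifferentiableAt ℂ (fun w : ℂ => q (ζ, Λ ζ (w, y))) w :=
      DifferentiableAt.comp (g := fun p : ℂ × E => q (ζ, Λ ζ p)) w h1 h2
    refine h3.congr_of_eventuallyEq ?_
    filter_upwards [(slice_o h y).mem_nhds hw] with w' hw'
    unfold B1
    rw [indicator_of_mem (show (ζ, w') ∈ ({ζ : ℂ | ‖ζ‖ ≤ R ∧ e ≤ ζ.im} ×ˢ {w : ℂ | (w, y) ∈ D} : Set (ℂ × ℂ)) from ⟨hζ, hw'⟩)]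
  · have h3 : B1 D Λ q y R e ζ = fun _ => 0 := by
      funext w'
      unfold B1
      rw [indicator_of_notMem]
      intro h4
      exact hζ h4.1
    rw [h3]
    exact differentiableAt_const _

lemma B1_bd (h : HQ D Λ q A) (y : E) {R e : ℝ} (he : 0 < e) (ζ w : ℂ) :
    ‖B1 D Λ q y R e ζ w‖ ≤ (ball (0 : ℂ) (R + 1)).indicator (fun _ => A / e) ζ := by
  have hA := h.A0
  unfold B1
  by_cases hp : (ζ, w) ∈ {ζ : ℂ | ‖ζ‖ ≤ R ∧ e ≤ ζ.im} ×ˢ {w : ℂ | (w, y) ∈ D}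
  · rw [indicator_of_mem hp]
    obtain ⟨⟨h1, h2⟩, h3⟩ := hp
    simp only at h1 h2
    have h3' : (w, y) ∈ D := h3
    have hζ : 0 < ζ.im := he.trans_le h2
    have hw : 0 < w.im := h.retr.im _ h3'
    rw [indicator_of_mem (show ζ ∈ ball (0 : ℂ) (R + 1) by rw [mem_ball_zero_iff]; linarith)]
    have h4 := h.dec ζ hζ (w, y) h3'
    have h5 := dk_le_one hζ hw
    have h6 := dk_nonneg ζ w
    calc ‖q (ζ, Λ ζ (w, y))‖ ≤ A / ζ.im * dk ζ w := h4
      _ ≤ A / e * 1 := by gcongr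
      _ = A / e := mul_one _
  · rw [indicator_of_notMem hp, norm_zero]
    apply indicator_nonneg
    intro _ _
    positivity

/-- the far part -/
noncomputable def H2 (Λ : ℂ → ℂ × E → E) (q : ℂ × E → ℂ) (y : E) (R e : ℝ) (w ζ : ℂ) : ℂ :=
  {ζ : ℂ | ‖ζ‖ ≤ R ∧ e ≤ ζ.im}ᶜ.indicator (fun ζ => ig Λ q (w, y) ζ / (w - ζ)) ζ

/-- the region where the far part is holomorphic -/
def Om (D : Set (ℂ × E)) (y : E) (R e : ℝ) : Set ℂ :=
  {w : ℂ | (w, y) ∈ D} ∩ {w : ℂ | ‖w‖ < R / 2 ∧ 2 * e < w.im}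

lemma Om_open (h : HQ D Λ q A) (y : E) (R e : ℝ) : IsOpen (Om D y R e) :=
  (slice_o h y).inter ((isOpen_lt continuous_norm continuous_const).inter
    (isOpen_lt continuous_const Complex.continuous_im))

lemma far_dist {R e : ℝ} (hR : 1 ≤ R) (he : 0 < e) (he1 : e ≤ 1) {w ζ : ℂ} (hw : ‖w‖ < R / 2) (hw2 : 2 * e < w.im)
    (hζ : 0 < ζ.im) (hK : ¬ (‖ζ‖ ≤ R ∧ e ≤ ζ.im)) : (e / (4 * R)) * (1 + ‖ζ‖) ≤ ‖w - ζ‖ := by
  have hR0 : 0 < R := by linarith
  have hζ0 := norm_nonneg ζ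
  have hc : e / (4 * R) ≤ 1 / 4 := by
    rw [div_le_div_iff₀ (by positivity) (by norm_num)]
    linarith
  have hc0 : 0 < e / (4 * R) := by positivity
  by_cases h1 : ‖ζ‖ ≤ R
  · have h2 : ζ.im < e := by
      by_contra h3
      exact hK ⟨h1, not_lt.1 h3⟩
    have h3 : e ≤ ‖w - ζ‖ := by
      have h4 := Complex.abs_im_le_norm (w - ζ)
      rw [Complex.sub_im] at h4
      have h5 := le_abs_self (w.im - ζ.im)
      linarith
    calc (e / (4 * R)) * (1 + ‖ζ‖) ≤ (e / (4 * R)) * (2 * R) := by gcongr; linarith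
      _ = e / 2 := by field_simp; ring
      _ ≤ ‖w - ζ‖ := by linarith
  · push Not at h1
    have h2 : ‖ζ‖ - ‖w‖ ≤ ‖w - ζ‖ := by
      have := norm_sub_norm_le ζ w
      rwa [norm_sub_rev] at this
    calc (e / (4 * R)) * (1 + ‖ζ‖) ≤ (1 / 4) * (1 + ‖ζ‖) := by gcongr
      _ ≤ ‖w - ζ‖ := by linarith

lemma H2_le (h : HQ D Λ q A) (y : E) {R e : ℝ} (hR : 1 ≤ R) (he : 0 < e) (he1 : e ≤ 1) (ζ w : ℂ)
    (hw : w ∈ Om D y R e) :
    ‖H2 Λ q y R e w ζ‖ ≤ (A * (2 * √(R / 2) * ((e / (4 * R))⁻¹) ^ 2)) * bj ζ := by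
  have hA := h.A0
  obtain ⟨hwD, hw1, hw2⟩ := hw
  have hwD' : (w, y) ∈ D := hwD
  have hwim : 0 < w.im := h.retr.im _ hwD'
  have hR0 : 0 < R := by linarith
  unfold H2
  by_cases hK : ζ ∈ {ζ : ℂ | ‖ζ‖ ≤ R ∧ e ≤ ζ.im}ᶜ
  · rw [indicator_of_mem hK]
    by_cases hU : ζ ∈ UH
    · have hζ : 0 < ζ.im := hU
      have hd := far_dist hR he he1 hw1 hw2 hζ hK
      have hpos : 0 < (e / (4 * R)) * (1 + ‖ζ‖) := by positivity
      have hd2 := hd.trans (conj_ge hζ hwim)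
      refine (ig_le h hwD' ζ).trans ?_
      simp only
      rw [kf_of hζ]
      unfold bj dk
      rw [indicator_of_mem hU]
      have h7 : √(ζ.im * w.im) = √ζ.im * √w.im := Real.sqrt_mul hζ.le _
      have h8 : √w.im ≤ √(R / 2) := by
        apply Real.sqrt_le_sqrt
        have := Complex.im_le_norm w
        linarith
      rw [h7]
      obtain ⟨s, hs, hss, hse⟩ : ∃ s : ℝ, 0 < s ∧ s * s = ζ.im ∧ √ζ.im = s :=
        ⟨√ζ.im, Real.sqrt_pos.2 hζ, Real.mul_self_sqrt hζ.le, rfl⟩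
      rw [hse, ← hss]
      calc A * (1 / (s * s) * (2 * (s * √w.im) / ‖w - starRingEnd ℂ ζ‖) * ‖w - ζ‖⁻¹)
          ≤ A * (1 / (s * s) * (2 * (s * √(R / 2)) / ((e / (4 * R)) * (1 + ‖ζ‖))) *
              ((e / (4 * R)) * (1 + ‖ζ‖))⁻¹) := by gcongr
        _ = _ := by field_simp
    · unfold ig
      rw [indicator_of_notMem hU, zero_div, norm_zero]
      have := bj_nonneg ζ
      positivity
  · rw [indicator_of_notMem hK, norm_zero]
    have := bj_nonneg ζ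
    positivity

lemma H2_meas (h : HQ D Λ q A) (y : E) (R e : ℝ) {w : ℂ} (hw : (w, y) ∈ D) :
    Measurable (H2 Λ q y R e w) := by
  unfold H2
  apply Measurable.indicator _ (K_meas R e).compl
  exact (ig_meas h hw).div (by fun_prop)

lemma H2_holo (h : HQ D Λ q A) (hk : Integrable (kf I)) (y : E) {R e : ℝ} (hR : 1 ≤ R) (he : 0 < e) (he1 : e ≤ 1) :
    DifferentiableOn ℂ (fun w => ∫ ζ, H2 Λ q y R e w ζ) (Om D y R e) := by
  refine Pool.Agent.HP.differentiableOn_integral (X := ℂ) (E := ℂ) volume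
    (fun ζ w => H2 Λ q y R e w ζ) (Om D y R e) (Om_open h y R e)
    (fun w hw => (H2_meas h y R e hw.1).aestronglyMeasurable) ?_
    (fun ζ => (A * (2 * √(R / 2) * ((e / (4 * R))⁻¹) ^ 2)) * bj ζ) ((bj_int hk).const_mul _)
    (fun ζ w hw => H2_le h y hR he he1 ζ w hw)
  intro ζ w hw
  apply DifferentiableAt.differentiableWithinAt
  have hwD' : (w, y) ∈ D := hw.1
  unfold H2
  by_cases hK : ζ ∈ {ζ : ℂ | ‖ζ‖ ≤ R ∧ e ≤ ζ.im}ᶜ
  · simp only [indicator_of_mem hK]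
    by_cases hU : ζ ∈ UH
    · have hζ : 0 < ζ.im := hU
      unfold ig
      simp only [indicator_of_mem hU]
      have h1 := q_diff h hζ (p := (w, y)) hwD'
      have h2 : DifferentiableAt ℂ (fun w : ℂ => (w, y)) w := differentiableAt_id.prodMk (differentiableAt_const _)
      have h3 : DifferentiableAt ℂ (fun w : ℂ => q (ζ, Λ ζ (w, y))) w :=
        DifferentiableAt.comp (g := fun p : ℂ × E => q (ζ, Λ ζ p)) w h1 h2
      apply h3.div (by fun_prop)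
      have hd := far_dist hR he he1 hw.2.1 hw.2.2 hζ hK
      intro h4
      rw [h4, norm_zero] at hd
      have : 0 < (e / (4 * R)) * (1 + ‖ζ‖) := by positivity
      linarith
    · unfold ig
      simp only [indicator_of_notMem hU, zero_div]
      exact differentiableAt_const _
  · simp only [indicator_of_notMem hK]
    exact differentiableAt_const _

lemma VV_split (h : HQ D Λ q A) (hk : Integrable (kf I)) (y : E) {R e : ℝ} (hR : 1 ≤ R) (he : 0 < e)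
    (he1 : e ≤ 1) {w : ℂ} (hw : w ∈ Om D y R e) :
    VV Λ q (w, y) = CT (B1 D Λ q y R e) w + (1 / Real.pi : ℂ) * ∫ ζ, H2 Λ q y R e w ζ := by
  have hwD' : (w, y) ∈ D := hw.1
  have hi1 : Integrable (fun ζ => B1 D Λ q y R e ζ w / (w - ζ)) :=
    B_int (B1_meas h y R he) (fun ζ w => B1_bd h y he ζ w) w w
  have hi2 : Integrable (H2 Λ q y R e w) := by
    refine ((bj_int hk).const_mul (A * (2 * √(R / 2) * ((e / (4 * R))⁻¹) ^ 2))).mono'
      (H2_meas h y R e hwD').aestronglyMeasurable (Eventually.of_forall fun ζ => H2_le h y hR he he1 ζ w hw)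
  unfold VV CT
  rw [← mul_add, ← integral_add hi1 hi2]
  congr 2
  funext ζ
  simp only
  unfold H2
  by_cases hK : ζ ∈ {ζ : ℂ | ‖ζ‖ ≤ R ∧ e ≤ ζ.im}
  · have hU : ζ ∈ UH := lt_of_lt_of_le he hK.2
    rw [indicator_of_notMem (show ζ ∉ {ζ : ℂ | ‖ζ‖ ≤ R ∧ e ≤ ζ.im}ᶜ from fun h5 => h5 hK), add_zero]
    unfold B1
    rw [indicator_of_mem (show (ζ, w) ∈ ({ζ : ℂ | ‖ζ‖ ≤ R ∧ e ≤ ζ.im} ×ˢ {w : ℂ | (w, y) ∈ D} : Set (ℂ × ℂ)) from ⟨hK, hwD'⟩), indicator_of_mem hU]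
  · rw [indicator_of_mem (show ζ ∈ {ζ : ℂ | ‖ζ‖ ≤ R ∧ e ≤ ζ.im}ᶜ from hK)]
    have : B1 D Λ q y R e ζ w = 0 := by
      unfold B1
      rw [indicator_of_notMem]
      intro h4
      exact hK h4.1
    rw [this, zero_div, zero_add]
    rfl

lemma WD_local (h : HQ D Λ q A) (hk : Integrable (kf I)) (y : E) {R e : ℝ} (hR : 1 ≤ R) (he : 0 < e)
    (he1 : e ≤ 1) : WD (Om D y R e) (fun w => VV Λ q (w, y)) (fun w => q (w, y)) := by
  have hA := h.A0
  have h1 : WD {w : ℂ | (w, y) ∈ D} (CT (B1 D Λ q y R e)) (fun z => B1 D Λ q y R e z z) :=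
    CT_weak (slice_o h y) (by linarith : 0 ≤ R + 1) (by positivity : 0 ≤ A / e) (B1_meas h y R he)
      (fun ζ => B1_diff h y R he ζ) (fun ζ w => B1_bd h y he ζ w)
  have h1' : WD (Om D y R e) (CT (B1 D Λ q y R e)) (fun z => B1 D Λ q y R e z z) :=
    ⟨h1.cont.mono inter_subset_left, h1.li.mono_set inter_subset_left,
      fun φ hφ hc hs => h1.weak φ hφ hc (hs.trans inter_subset_left)⟩
  have hH := H2_holo h hk y hR he he1
  have h2 : WD (Om D y R e) (fun w => (1 / Real.pi : ℂ) * ∫ ζ, H2 Λ q y R e w ζ) (fun _ => 0) := by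
    have hC : ContDiffOn ℝ 1 (fun _ : ℂ => (1 : ℂ)) (Om D y R e) := contDiffOn_const
    have h3 := WD.of_C1 (Om_open h y R e) hC
    have h4 := h3.mul_holo (Om_open h y R e) (hH.const_mul (1 / Real.pi : ℂ))
    refine h4.congr (Om_open h y R e) (fun z _ => by simp) (fun z _ => ?_)
    rw [db_holo (differentiableAt_const _), mul_zero]
  have h3 := h1'.add (Om_open h y R e) h2
  refine h3.congr (Om_open h y R e) (fun z hz => VV_split h hk y hR he he1 hz) (fun z hz => ?_)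
  have hzD : (z, y) ∈ D := hz.1
  have hK : z ∈ {ζ : ℂ | ‖ζ‖ ≤ R ∧ e ≤ ζ.im} := by
    refine ⟨?_, ?_⟩
    · have := hz.2.1
      linarith
    · have := hz.2.2
      linarith
  unfold B1
  rw [indicator_of_mem (show (z, z) ∈ ({ζ : ℂ | ‖ζ‖ ≤ R ∧ e ≤ ζ.im} ×ˢ {w : ℂ | (w, y) ∈ D} : Set (ℂ × ℂ)) from ⟨hK, hzD⟩)]
  rw [h.retr.self z y hzD, add_zero]

lemma cover (h : HQ D Λ q A) (y : E) {T : Set ℂ} (hT : IsCompact T) (hTD : T ⊆ {w : ℂ | (w, y) ∈ D}) :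
    ∃ R e : ℝ, 1 ≤ R ∧ 0 < e ∧ e ≤ 1 ∧ T ⊆ Om D y R e := by
  obtain ⟨r, hr⟩ := hT.isBounded.subset_ball (0 : ℂ)
  have himp : ∀ w ∈ T, 0 < w.im := fun w hw => h.retr.im _ (hTD hw)
  obtain ⟨e0, he0, he0T⟩ : ∃ e0 : ℝ, 0 < e0 ∧ ∀ w ∈ T, e0 ≤ w.im := by
    rcases T.eq_empty_or_nonempty with h0 | h0
    · exact ⟨1, one_pos, fun w hw => by rw [h0] at hw; exact absurd hw (notMem_empty w)⟩
    · obtain ⟨w1, hw1, hmin⟩ := hT.exists_isMinOn h0 Complex.continuous_im.continuousOn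
      exact ⟨w1.im, himp w1 hw1, fun w hw => hmin hw⟩
  refine ⟨max 1 (2 * r), min 1 (e0 / 4), le_max_left _ _, by positivity, min_le_left _ _, ?_⟩
  intro w hw
  refine ⟨hTD hw, ?_, ?_⟩
  · have h1 := hr hw
    rw [mem_ball_zero_iff] at h1
    have h2 := le_max_right 1 (2 * r)
    linarith
  · have h1 := he0T w hw
    have h2 := min_le_right 1 (e0 / 4)
    linarith

theorem op_of_ker : S_ker → S_op := by
  rintro ⟨c₀, hc₀, hker⟩
  refine ⟨c₀, hc₀, ?_⟩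
  intro E _ _ _ D Λ hr q A hA hcont hhol hdec
  have h : HQ D Λ q A := ⟨hr, hA, hcont, hhol, hdec⟩
  have hkI : Integrable (kf I) := (hker I (by simp)).1
  refine ⟨?_, ?_, ?_⟩
  · intro p hp
    have hpim : 0 < p.1.im := hr.im p hp
    obtain ⟨k1, k2⟩ := hker p.1 hpim
    have k1' : Integrable (kf p.1) := k1
    have k2' : ∫ ζ, kf p.1 ζ ≤ c₀ := k2
    unfold VV
    rw [norm_mul, norm_div, norm_one, Complex.norm_real, Real.norm_of_nonneg Real.pi_pos.le]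
    have h1 : ‖∫ ζ, UH.indicator (fun ζ => q (ζ, Λ ζ p)) ζ / (p.1 - ζ)‖ ≤ A * c₀ := by
      refine (norm_integral_le_of_norm_le (k1'.const_mul A)
        (Eventually.of_forall fun ζ => ig_le h hp ζ)).trans ?_
      rw [integral_const_mul]
      gcongr
    have hpi : 1 / Real.pi ≤ 1 := by
      rw [div_le_one Real.pi_pos]
      linarith [Real.pi_gt_three]
    have h0 : 0 ≤ 1 / Real.pi := by positivity
    calc _ ≤ 1 * (A * c₀) := by gcongr
      _ = c₀ * A := by ring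
  · intro y
    refine ⟨?_, ?_, ?_⟩
    · intro w hw
      obtain ⟨R, e, hR, he, he1, hsub⟩ := cover h y (T := {w}) isCompact_singleton (by
        intro z hz
        rw [mem_singleton_iff] at hz
        rw [hz]; exact hw)
      have h1 := (WD_local h hkI y hR he he1).cont
      have hwO : w ∈ Om D y R e := hsub (mem_singleton w)
      exact (h1.continuousAt ((Om_open h y R e).mem_nhds hwO)).continuousWithinAt
    · refine ContinuousOn.locallyIntegrableOn ?_ (slice_o h y).measurableSet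
      exact hcont.comp (by fun_prop) (fun w hw => hw)
    · intro φ hφ hc hs
      obtain ⟨R, e, hR, he, he1, hsub⟩ := cover h y (T := tsupport φ) hc hs
      exact (WD_local h hkI y hR he he1).weak φ hφ hc hsub
  · intro w
    have hO : IsOpen {y : E | (w, y) ∈ D} := hr.op.preimage (by fun_prop : Continuous fun y : E => (w, y))
    by_cases hw : 0 < w.im
    · have k1' : Integrable (kf w) := (hker w hw).1
      have h1 := Pool.Agent.HP.differentiableOn_integral (X := E) (E := ℂ) volume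
        (fun ζ y => ig Λ q (w, y) ζ / (w - ζ)) {y : E | (w, y) ∈ D} hO
        (fun y hy => ((ig_meas h (p := (w, y)) hy).div (by fun_prop)).aestronglyMeasurable)
        (fun ζ y hy => by
          apply DifferentiableAt.differentiableWithinAt
          by_cases hU : ζ ∈ UH
          · have hζ : 0 < ζ.im := hU
            unfold ig
            simp only [indicator_of_mem hU]
            have h1 := q_diff h hζ (p := (w, y)) hy
            have h2 : DifferentiableAt ℂ (fun y : E => (w, y)) y := (differentiableAt_const _).prodMk differentiableAt_id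
            have h3 : DifferentiableAt ℂ (fun y : E => q (ζ, Λ ζ (w, y))) y :=
              DifferentiableAt.comp (g := fun p : ℂ × E => q (ζ, Λ ζ p)) y h1 h2
            simp only [div_eq_mul_inv]
            exact h3.mul_const _
          · unfold ig
            simp only [indicator_of_notMem hU, zero_div]
            exact differentiableAt_const _)
        (fun ζ => A * kf w ζ) (k1'.const_mul A)
        (fun ζ y hy => ig_le h (p := (w, y)) hy ζ)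
      exact h1.const_mul _
    · intro y hy
      exact absurd (hr.im _ hy) hw

end Pool.Agent.W688.Cor
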